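import Mathlib
import Pool.Agent.W543.MO.Parts

/-!
# Descent along dominant maps and restriction of theories to subclasses
-/

set_option autoImplicit false

open CategoryTheory AlgebraicGeometry

namespace Pool.Agent.W589.MO

open Pool.Agent.H914 Pool.Agent.H914.VarClass Pool.Agent.H914.VarClass.Obj Pool.Agent.W492.BB
  Pool.Agent.W550.Corr Pool.Agent.W484.CK Pool.Agent.W543.MO

/-- Part DESC. -/
theorem t_DESC : DESC_stmt := by
  intro k _ 𝒱 C _ K _ _ H _ X Y hdom hY i z hz hnum
  obtain ⟨g, w, hw⟩ := hdom
  have h1 : C.pull g z = 0 := by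
    refine hY i _ (C.pull_mem g hz) ?_
    intro j w' hij hw'
    change H.tr Y (H.cl (C.pull g z * w')) = 0
    rw [← H.tr_push g, ← H.cl_push, C.proj_left]
    have hm : C.push g w' ∈ C.gr X ((j : ℤ) + 1 * ((X.dim : ℤ) - Y.dim)) := C.push_mem g hw'
    by_cases hle : i ≤ X.dim
    · refine hnum (X.dim - i) (C.push g w') (by omega) ?_
      have h2 : ((X.dim - i : ℕ) : ℤ) = (j : ℤ) + 1 * ((X.dim : ℤ) - Y.dim) := by
        have h3 : (i : ℤ) + j = Y.dim := by exact_mod_cast hij
        omega
      change C.push g w' ∈ C.gr X _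
      rw [h2]
      exact hm
    · have h2 : (j : ℤ) + 1 * ((X.dim : ℤ) - Y.dim) < 0 := by
        have h3 : (i : ℤ) + j = Y.dim := by exact_mod_cast hij
        omega
      rw [C.gr_neg X _ h2] at hm
      rw [(Submodule.mem_bot ℚ).1 hm, mul_zero, map_zero, map_zero]
  have h2 := C.proj_right g w z
  rw [h1, mul_zero, map_zero] at h2
  change C.push g w = 1 at hw
  rw [hw, one_mul] at h2
  exact h2.symm

section

universe u v w

variable {k : Type u} [Field k] {𝒱 𝒵 : VarClass k} (hle : IsSubclass 𝒵 𝒱)

theorem restrict_isTheory {F : Type w} [Field F] {δ : ℤ} {T : TheoryData.{u, v, w} 𝒱 F}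
    (h : IsTheory T δ) : IsTheory (restrict hle T) δ where
  isGradedRing :=
    { isInternal := fun X => h.isGradedRing.isInternal (incl hle X)
      gr_neg := fun X => h.isGradedRing.gr_neg (incl hle X)
      one_mem := fun X => h.isGradedRing.one_mem (incl hle X)
      mul_mem := fun {X} => h.isGradedRing.mul_mem (X := incl hle X) }
  hasDegrees :=
    { pull_mem := fun {X Y} => h.hasDegrees.pull_mem (X := incl hle X) (Y := incl hle Y)
      push_mem := fun {X Y} => h.hasDegrees.push_mem (X := incl hle X) (Y := incl hle Y) }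
  isFunctor :=
    { pull_id := fun {X} => h.isFunctor.pull_id (X := incl hle X)
      pull_comp := fun {X Y Z} => h.isFunctor.pull_comp (X := incl hle X) (Y := incl hle Y)
        (Z := incl hle Z)
      push_id := fun {X} => h.isFunctor.push_id (X := incl hle X)
      push_comp := fun {X Y Z} => h.isFunctor.push_comp (X := incl hle X) (Y := incl hle Y)
        (Z := incl hle Z) }
  hasProjectionFormula :=
    { proj_right := fun {X Y} => h.hasProjectionFormula.proj_right (X := incl hle X)
        (Y := incl hle Y)
      proj_left := fun {X Y} => h.hasProjectionFormula.proj_left (X := incl hle X)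
        (Y := incl hle Y) }
  hasBaseChange :=
    { base_fst := fun {X Y} f Z => h.hasBaseChange.base_fst (X := incl hle X) (Y := incl hle Y)
        f (incl hle Z)
      base_snd := fun {X Y} f Z => h.hasBaseChange.base_snd (X := incl hle X) (Y := incl hle Y)
        f (incl hle Z) }

theorem restrict_isChow {C : TheoryData.{u, v, 0} 𝒱 ℚ} (h : IsChow C) :
    IsChow (restrict hle C) where
  isTheory := restrict_isTheory hle h.isTheory
  mul_comm := fun {X} => h.mul_comm (X := incl hle X)
  exists_deg_one := fun X => by
    obtain ⟨a, ha, h1, h2⟩ := h.exists_deg_one (incl hle X)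
    exact ⟨a, ha, fun Z => h1 (incl hle Z), fun Z => h2 (incl hle Z)⟩

variable {C : TheoryData.{u, v, 0} 𝒱 ℚ} {K : Type w} [Field K]

theorem restrict_isWeil {H : WeilTheoryData.{u, v, w} C K} (h : IsWeil H) :
    IsWeil (restrictWeil hle H) where
  isTheory := restrict_isTheory hle h.isTheory
  isOriented :=
    { tr_push := fun {X Y} => h.isOriented.tr_push (X := incl hle X) (Y := incl hle Y)
      nondeg := fun {X} => h.isOriented.nondeg (X := incl hle X) }
  kunnethFormula := fun X Y => h.kunnethFormula (incl hle X) (incl hle Y)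
  isClassMap :=
    { cl_mem := fun {X} => h.isClassMap.cl_mem (X := incl hle X)
      cl_pull := fun {X Y} => h.isClassMap.cl_pull (X := incl hle X) (Y := incl hle Y)
      cl_push := fun {X Y} => h.isClassMap.cl_push (X := incl hle X) (Y := incl hle Y)
      cl_central := fun {X} => h.isClassMap.cl_central (X := incl hle X) }

theorem restrict_isStandard {H : WeilTheoryData.{u, v, w} C K} (h : IsStandard H) :
    IsStandard (restrictWeil hle H) where
  finite := fun X => h.finite (incl hle X)
  nontrivial := fun X => h.nontrivial (incl hle X)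
  coh_top := fun X => h.coh_top (incl hle X)
  coh_zero := fun X => h.coh_zero (incl hle X)
  chow_top := fun X => h.chow_top (incl hle X)
  chow_zero := fun X => h.chow_zero (incl hle X)

end

/-- Part RES. -/
theorem t_RES : RES_stmt := by
  intro k _ 𝒱 𝒵 hle C K _ H
  exact ⟨restrict_isChow hle, fun h => ⟨fun {X Y} f g h1 h2 =>
    h.push_one (X := incl hle X) (Y := incl hle Y) f g h1 h2⟩, restrict_isWeil hle,
    restrict_isStandard hle, fun Z => Iff.rfl⟩

end Pool.Agent.W589.MO
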